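import Pool.Agent.Helper60.FF.StmtsC

/-!
# Birational sections over function fields, Part II: the module VTX
-/

set_option autoImplicit false

namespace Pool.Agent.Helper60.FF

open Polynomial

/-- VTX -/
theorem st_VTX (hP1 : ST_P1) (hEXI : ST_EXI) (hL5 : ST_L5) (hRDU : ST_RDU) (hRAMX : ST_RAMX)
    (hLFX : ST_LFX) (hRFA : ST_RFA) : ST_VTX := by
  intro p n _ hpp K b b' hbb
  have hϖ : b' - b ≠ 0 := sub_ne_zero.2 hbb
  have hϖc : ((b' : ℂ_[p]) - (b : ℂ_[p])) ≠ 0 := by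
    intro h
    apply hϖ
    apply Subtype.ext
    simpa using h
  obtain ⟨T, hTP, -⟩ := hP1 p n hpp K b (b' - b) hϖ
  obtain ⟨B, hB, hexi⟩ := hEXI p n hpp K b (b' - b) hϖ T hTP
  refine ⟨T, B, hTP.1, hB, ?_⟩
  intro v φ hv hGD hw
  set w : RF p := res (((v : ℂ_[p]) - (b : ℂ_[p])) / ((b' : ℂ_[p]) - (b : ℂ_[p]))) with hwdef
  -- the field `E₁`
  have := K.fin₀
  have hint : ∀ x ∈ ({(b : ℂ_[p]), (b' : ℂ_[p])} : Set ℂ_[p]), IsIntegral ℚ_[p] x := by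
    intro x hx
    rcases hx with rfl | hx
    · exact (K.alg _ b.2).isIntegral
    · rw [Set.mem_singleton_iff] at hx
      rw [hx]
      exact (K.alg _ b'.2).isIntegral
  have : FiniteDimensional ℚ_[p]
      (IntermediateField.adjoin ℚ_[p] ({(b : ℂ_[p]), (b' : ℂ_[p])} : Set ℂ_[p])) :=
    IntermediateField.finiteDimensional_adjoin hint
  set E₁ : IntermediateField ℚ_[p] ℂ_[p] :=
    K.E₀ ⊔ IntermediateField.adjoin ℚ_[p] ({(b : ℂ_[p]), (b' : ℂ_[p])} : Set ℂ_[p]) with hE₁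
  have hfin1 : FiniteDimensional ℚ_[p] E₁ := IntermediateField.finiteDimensional_sup _ _
  have hE01 : K.E₀ ≤ E₁ := le_sup_left
  have hbE : (b : ℂ_[p]) ∈ E₁ := by
    apply (le_sup_right : _ ≤ E₁)
    exact IntermediateField.subset_adjoin _ _ (Or.inl rfl)
  have hbE' : (b' : ℂ_[p]) ∈ E₁ := by
    apply (le_sup_right : _ ≤ E₁)
    exact IntermediateField.subset_adjoin _ _ (Or.inr rfl)
  obtain ⟨-, π₁, hπ₁A, f₁, hLF1⟩ := hLFX p K.A K.acl E₁ hfin1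
  obtain ⟨-, hexf, -, hle⟩ := hRFA p
  obtain ⟨g, hg, hwg⟩ := hexf w
  have hf1 : 0 < f₁ := hLF1.fpos
  have hM : 0 < 4 * n + 2 := by omega
  obtain ⟨π, hπ⟩ := IsAlgClosed.exists_pow_nat_eq π₁ hM
  obtain ⟨E, hEE, hLF⟩ := hRAMX p E₁ π₁ f₁ hLF1 (f₁ * g) (4 * n + 2) π (dvd_mul_right _ _)
    (Nat.mul_pos hf1 hg) hM hπ
  have hwf : w ∈ Fq p (f₁ * g) :=
    (hle g (f₁ * g) hg (Nat.mul_pos hf1 hg)).2 (dvd_mul_left _ _) hwg
  have hnorm : ‖π‖ ^ (4 * n + 2) = ‖π₁‖ := by rw [← hπ, norm_pow]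
  have hsub : (((b' - b : K.A) : K.A) : ℂ_[p]) = (b' : ℂ_[p]) - (b : ℂ_[p]) := by push_cast; rfl
  obtain ⟨τ, hτE, hτA, hτ1, hτr, hτR⟩ := hexi E₁ π₁ f₁ hLF1 hE01 hbE
    (by rw [hsub]; exact sub_mem hbE' hbE) E π (f₁ * g) (4 * n + 2) hLF hEE hM (dvd_refl _) hnorm w hwf hw
  rw [hsub] at hτ1 hτr
  have hpos : 0 < ‖(b' : ℂ_[p]) - (b : ℂ_[p])‖ := norm_pos_iff.2 hϖc
  have hv1 : ‖((v : ℂ_[p]) - (b : ℂ_[p])) / ((b' : ℂ_[p]) - (b : ℂ_[p]))‖ ≤ 1 := by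
    rw [norm_div]
    exact div_le_one_of_le₀ hv (norm_nonneg _)
  have hdist : ‖τ - (v : ℂ_[p])‖ < ‖(b' : ℂ_[p]) - (b : ℂ_[p])‖ := by
    have h1 := (res_eq_iff hτ1 hv1).1 (hτr.trans hwdef)
    rw [← sub_div, norm_div, div_lt_one hpos] at h1
    have h2 : τ - (b : ℂ_[p]) - ((v : ℂ_[p]) - (b : ℂ_[p])) = τ - (v : ℂ_[p]) := by ring
    rwa [h2] at h1
  have hτalg : IsAlgebraic ℚ_[p] τ := by
    have := hLF.fin
    have h := Algebra.IsAlgebraic.isAlgebraic (R := ℚ_[p]) (⟨τ, hτE⟩ : E)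
    exact (isAlgebraic_algebraMap_iff (algebraMap E ℂ_[p]).injective).2 h
  rw [← hsub] at hGD hdist
  obtain ⟨hL, -⟩ := hL5 p n hpp K v (b' - b) φ hϖ hGD
  have hRφ := hL τ hτalg hτA hdist
  obtain ⟨-, hu, -⟩ := hRDU p (K.χ τ)
  exact hu φ (sp w T) hRφ hτR

end Pool.Agent.Helper60.FF
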