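import Pool.Agent.Helper24.FF.Stmts
import Pool.Agent.Helper63.FL.IPL

set_option autoImplicit false

/-!
HF, module RBR: rings broken at a vertex.
-/

namespace Pool.Agent.Helper24.FF

open Pool.Agent.Helper64.CT Pool.Agent.Helper64.DT Pool.Agent.Helper64.FL
open Pool.Agent.Helper64.HG (Ovl Model Circ IC HellyCircle ChordModel)

variable {V : Type}

theorem rbr_idx {m s i : ℕ} (hs : s ≤ m) (hi : i < m) : ∃ j, j < m ∧ (j + s) % m = i := by
  refine ⟨(i + (m - s)) % m, Nat.mod_lt _ (by omega), ?_⟩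
  rw [Nat.mod_add_mod, show i + (m - s) + s = i + m by omega, Nat.add_mod_right,
    Nat.mod_eq_of_lt hi]

/-- the first part: the clique vertices up to `j` and the links below `j`, together with `C` -/
theorem rbr_base (hRCH : ST_RCH) (hR3 : ST_R3) (G : SimpleGraph V) (m : ℕ) (n : ℕ → V)
    (P : ℕ → List V) (C : Set V) (hR : Ring G m n P) (hC1 : ∀ c ∈ C, ∀ c' ∈ C, c = c')
    (hC2 : ∀ c ∈ C, (∀ i, i < m → c ∉ P i ∧ c ≠ n i) ∧ ∀ x, G.Adj c x ↔ ∃ i, i < m ∧ x = n i)
    (j : ℕ) (hj : j < m) :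
    CE G {x | x ∈ C ∨ (∃ i, i ≤ j ∧ x = n i) ∨ ∃ i, i < j ∧ x ∈ P i} := by
  have hrg := hRCH V G m n P hR j hj
  by_cases hne : ∃ c, c ∈ C
  · obtain ⟨c, hc⟩ := hne
    have h := hR3.1 V G _ _ _ _ c _ hrg ?_ ?_
    · have e : {x | x ∈ C ∨ (∃ i, i ≤ j ∧ x = n i) ∨ ∃ i, i < j ∧ x ∈ P i} =
          insert c {x | (∃ i, i ≤ j ∧ x = n i) ∨ ∃ i, i < j ∧ x ∈ P i} := by
        ext x
        constructor
        · rintro (h1 | h1)
          · exact Or.inl (hC1 x h1 c hc)
          · exact Or.inr h1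
        · rintro (h1 | h1)
          · exact Or.inl (by rw [h1]; exact hc)
          · exact Or.inr h1
      rw [e]
      exact h
    · rintro (⟨i, hi, rfl⟩ | ⟨i, hi, h1⟩)
      · exact ((hC2 _ hc).1 i (by omega)).2 rfl
      · exact ((hC2 _ hc).1 i (by omega)).1 h1
    · intro y hy
      rw [(hC2 c hc).2 y]
      constructor
      · rintro ⟨i, hi, hyi⟩
        rcases hy with ⟨i', hi', hy'⟩ | ⟨i', hi', hy'⟩
        · exact ⟨i', hi', hy'⟩
        · exact absurd hyi (hR.dis i' i (by omega) hi y hy')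
      · rintro ⟨i, hi, hyi⟩
        exact ⟨i, by omega, hyi⟩
  · have e : {x | x ∈ C ∨ (∃ i, i ≤ j ∧ x = n i) ∨ ∃ i, i < j ∧ x ∈ P i} =
        {x | (∃ i, i ≤ j ∧ x = n i) ∨ ∃ i, i < j ∧ x ∈ P i} := by
      ext x
      constructor
      · rintro (h1 | h1)
        · exact absurd ⟨x, h1⟩ hne
        · exact h1
      · intro h1
        exact Or.inr h1
    rw [e]
    obtain ⟨_, _, _, a, b, _, _, _, _, hcm, _⟩ := hrg
    exact ⟨a, b, hcm⟩

/-- neighbours of a vertex of the last link -/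
theorem rbr_last (G : SimpleGraph V) (m : ℕ) (n : ℕ → V)
    (P : ℕ → List V) (C : Set V) (hR : Ring G m n P)
    (hC2 : ∀ c ∈ C, (∀ i, i < m → c ∉ P i ∧ c ≠ n i) ∧ ∀ x, G.Adj c x ↔ ∃ i, i < m ∧ x = n i)
    (k : ℕ) (hk : k < m) (x y : V) (hx : x ∈ P k) (hxy : G.Adj x y)
    (hy : y ∈ C ∨ (∃ i, i < m ∧ y = n i) ∨ ∃ i, i < m ∧ i ≠ k ∧ y ∈ P i) :
    (y = n k ∧ (P k).head? = some x) ∨ (y = n ((k + 1) % m) ∧ (P k).getLast? = some x) := by
  rcases hy with hy | ⟨i, hi, rfl⟩ | ⟨i, hi, hik, hy⟩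
  · obtain ⟨i, hi, hxi⟩ := ((hC2 y hy).2 x).mp hxy.symm
    exact absurd hxi (hR.dis k i hk hi x hx)
  · by_cases h1 : i = k
    · left
      subst h1
      exact ⟨rfl, (hR.fst i hi x hx).mp hxy.symm⟩
    · by_cases h2 : i = (k + 1) % m
      · right
        subst h2
        exact ⟨rfl, (hR.lst k hk x hx).mp hxy.symm⟩
      · exact absurd hxy.symm (hR.cln k i hk hi h1 h2 x hx)
  · exact absurd hxy (hR.sep k i hk hi (Ne.symm hik) x hx y hy).2

/-- a vertex of a link is not in the rest -/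
theorem rbr_new (G : SimpleGraph V) (m : ℕ) (n : ℕ → V)
    (P : ℕ → List V) (C : Set V) (hR : Ring G m n P)
    (hC2 : ∀ c ∈ C, (∀ i, i < m → c ∉ P i ∧ c ≠ n i) ∧ ∀ x, G.Adj c x ↔ ∃ i, i < m ∧ x = n i)
    (k : ℕ) (hk : k < m) (x : V) (hx : x ∈ P k) :
    ¬ (x ∈ C ∨ (∃ i, i < m ∧ x = n i) ∨ ∃ i, i < m ∧ i ≠ k ∧ x ∈ P i) := by
  rintro (hy | ⟨i, hi, h⟩ | ⟨i, hi, hik, hy⟩)
  · exact ((hC2 x hy).1 k hk).1 hx
  · exact hR.dis k i hk hi x hx h
  · exact (hR.sep k i hk hi (Ne.symm hik) x hx x hy).1 rfl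

theorem rbr_nm (G : SimpleGraph V) (m : ℕ) (n : ℕ → V) (P : ℕ → List V) (hR : Ring G m n P) :
    n (m - 1) ≠ n 0 := by
  have h3 := hR.m3
  exact (hR.clq (m - 1) 0 (by omega) (by omega) (by omega)).ne

/-- normal position -/
theorem rbr_main (hRCH : ST_RCH) (hR3 : ST_R3) (hPEL : ST_PEL) (hCEC : ST_CEC)
    (G : SimpleGraph V) (m : ℕ) (n : ℕ → V)
    (P : ℕ → List V) (z : V) (C : Set V) (hR : Ring G m n P) (hC1 : ∀ c ∈ C, ∀ c' ∈ C, c = c')
    (hC2 : ∀ c ∈ C, (∀ i, i < m → c ∉ P i ∧ c ≠ n i) ∧ ∀ x, G.Adj c x ↔ ∃ i, i < m ∧ x = n i)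
    (hz : z = n (m - 1) ∨ z ∈ P (m - 1)) :
    CE G {x | x ≠ z ∧ (x ∈ C ∨ (∃ i, i < m ∧ x = n i) ∨ ∃ i, i < m ∧ x ∈ P i)} := by
  have h3 := hR.m3
  have hm1 : (m - 1 + 1) % m = 0 := by
    rw [show m - 1 + 1 = m by omega, Nat.mod_self]
  have hm2 : (m - 2 + 1) % m = m - 1 := by
    rw [show m - 2 + 1 = m - 1 by omega]
    exact Nat.mod_eq_of_lt (by omega)
  rcases hz with hz | hz
  · have hbase := rbr_base hRCH hR3 G m n P C hR hC1 hC2 (m - 2) (by omega)
    set S1 : Set V := {x | x ∈ C ∨ (∃ i, i ≤ m - 2 ∧ x = n i) ∨ ∃ i, i < m - 2 ∧ x ∈ P i} with hS1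
    have hS1i : ∀ x, x ∈ S1 → (x ∈ C ∨ (∃ i, i < m ∧ x = n i) ∨ ∃ i, i < m ∧ i ≠ m - 2 ∧ x ∈ P i) := by
      rintro x (h | ⟨i, hi, h⟩ | ⟨i, hi, h⟩)
      · exact Or.inl h
      · exact Or.inr (Or.inl ⟨i, by omega, h⟩)
      · exact Or.inr (Or.inr ⟨i, by omega, by omega, h⟩)
    have hnz : n (m - 1) ∉ S1 := by
      rintro (h | ⟨i, hi, h⟩ | ⟨i, hi, h⟩)
      · exact ((hC2 _ h).1 (m - 1) (by omega)).2 rfl
      · exact (hR.clq (m - 1) i (by omega) (by omega) (by omega)).ne h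
      · exact hR.dis i (m - 1) (by omega) (by omega) _ h rfl
    have hA1 : ∀ x ∈ P (m - 2), ∀ y ∈ S1, G.Adj x y →
        y = n (m - 2) ∧ (P (m - 2)).head? = some x := by
      intro x hx y hy hxy
      rcases rbr_last G m n P C hR hC2 (m - 2) (by omega) x y hx hxy (hS1i y hy) with h | h
      · exact h
      · rw [hm2] at h
        rw [h.1] at hy
        exact absurd hy hnz
    have hce2 := hPEL V G S1 (P (m - 2)) hbase (hR.pth (m - 2) (by omega))
      (fun x hx hxS => rbr_new G m n P C hR hC2 (m - 2) (by omega) x hx (hS1i x hxS))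
      (fun x hx y hy hxy => (hA1 x hx y hy hxy).2)
      (fun x hx y hy y' hy' h h' => by
        rw [(hA1 x hx y hy h).1, (hA1 x hx y' hy' h').1])
    set S2 : Set V := S1 ∪ LS (P (m - 2)) with hS2
    have hS2i : ∀ x, x ∈ S2 → (x ∈ C ∨ (∃ i, i < m ∧ x = n i) ∨ ∃ i, i < m ∧ i ≠ m - 1 ∧ x ∈ P i) := by
      rintro x ((h | ⟨i, hi, h⟩ | ⟨i, hi, h⟩) | h)
      · exact Or.inl h
      · exact Or.inr (Or.inl ⟨i, by omega, h⟩)
      · exact Or.inr (Or.inr ⟨i, by omega, by omega, h⟩)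
      · exact Or.inr (Or.inr ⟨m - 2, by omega, by omega, h⟩)
    have hnz2 : n (m - 1) ∉ S2 := by
      rintro (h | h)
      · exact hnz h
      · exact hR.dis (m - 2) (m - 1) (by omega) (by omega) _ h rfl
    have hA2 : ∀ x ∈ (P (m - 1)).reverse, ∀ y ∈ S2, G.Adj x y →
        y = n 0 ∧ (P (m - 1)).reverse.head? = some x := by
      intro x hx y hy hxy
      rw [List.mem_reverse] at hx
      rcases rbr_last G m n P C hR hC2 (m - 1) (by omega) x y hx hxy (hS2i y hy) with h | h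
      · rw [h.1] at hy
        exact absurd hy hnz2
      · rw [hm1] at h
        rw [List.head?_reverse]
        exact h
    have hce3 := hPEL V G S2 (P (m - 1)).reverse hce2
      (Pool.Agent.Helper63.FL.ipt_rev G _ (hR.pth (m - 1) (by omega)))
      (fun x hx hxS => rbr_new G m n P C hR hC2 (m - 1) (by omega) x (List.mem_reverse.mp hx)
        (hS2i x hxS))
      (fun x hx y hy hxy => (hA2 x hx y hy hxy).2)
      (fun x hx y hy y' hy' h h' => by
        rw [(hA2 x hx y hy h).1, (hA2 x hx y' hy' h').1])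
    refine hCEC V G G _ _ hce3 ?_ (fun _ _ _ _ _ => Iff.rfl)
    rintro x ⟨hxz, hx⟩
    rcases hx with h | ⟨i, hi, h⟩ | ⟨i, hi, h⟩
    · exact Or.inl (Or.inl (Or.inl h))
    · have hne : i ≠ m - 1 := by
        intro he
        apply hxz
        rw [h, hz, he]
      exact Or.inl (Or.inl (Or.inr (Or.inl ⟨i, by omega, h⟩)))
    · by_cases h1 : i = m - 1
      · right
        rw [h1] at h
        exact List.mem_reverse.mpr h
      · by_cases h2 : i = m - 2
        · rw [h2] at h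
          exact Or.inl (Or.inr h)
        · exact Or.inl (Or.inl (Or.inr (Or.inr ⟨i, by omega, h⟩)))
  · have hbase := rbr_base hRCH hR3 G m n P C hR hC1 hC2 (m - 1) (by omega)
    obtain ⟨A, B, hAB⟩ := List.append_of_mem hz
    have hipt := hR.pth (m - 1) (by omega)
    have hnd : (A ++ z :: B).Nodup := by
      rw [← hAB]
      exact Pool.Agent.Helper63.FL.ipt_nodup G _ hipt
    have hsplit : IPt G (A ++ z :: B) := by
      rw [← hAB]
      exact hipt
    rw [Pool.Agent.Helper63.FL.ipt_split] at hsplit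
    obtain ⟨hiA, hiB, hAnB⟩ := hsplit
    have hiB' : IPt G B := hiB.2.2.2
    have hiA' : IPt G A := by
      have h1 := Pool.Agent.Helper63.FL.ipt_rev G _ hiA
      rw [List.reverse_append, List.reverse_singleton, List.singleton_append] at h1
      have h2 := Pool.Agent.Helper63.FL.ipt_rev G _ h1.2.2.2
      rwa [List.reverse_reverse] at h2
    set S1 : Set V := {x | x ∈ C ∨ (∃ i, i ≤ m - 1 ∧ x = n i) ∨ ∃ i, i < m - 1 ∧ x ∈ P i} with hS1
    have hS1i : ∀ x, x ∈ S1 → (x ∈ C ∨ (∃ i, i < m ∧ x = n i) ∨ ∃ i, i < m ∧ i ≠ m - 1 ∧ x ∈ P i) := by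
      rintro x (h | ⟨i, hi, h⟩ | ⟨i, hi, h⟩)
      · exact Or.inl h
      · exact Or.inr (Or.inl ⟨i, by omega, h⟩)
      · exact Or.inr (Or.inr ⟨i, by omega, by omega, h⟩)
    have hinA : ∀ x ∈ A, x ∈ P (m - 1) := by
      intro x hx
      rw [hAB]
      exact List.mem_append_left _ hx
    have hinB : ∀ x ∈ B, x ∈ P (m - 1) := by
      intro x hx
      rw [hAB]
      exact List.mem_append_right _ (List.mem_cons_of_mem _ hx)
    have hdAB : ∀ x ∈ A, x ∉ z :: B := by
      intro x hx hx'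
      exact (List.disjoint_of_nodup_append hnd) hx hx'
    have hhead : ∀ x, x ∈ A → (P (m - 1)).head? = some x → A.head? = some x := by
      intro x hx h
      cases A with
      | nil => simp at hx
      | cons a A =>
        rw [hAB] at h
        simpa using h
    have hheadB : ∀ x, x ∈ B → (P (m - 1)).head? ≠ some x := by
      intro x hx h
      cases A with
      | nil =>
        rw [hAB] at h
        have hzx : z = x := by simpa using h
        rw [List.nil_append, List.nodup_cons] at hnd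
        rw [hzx] at hnd
        exact hnd.1 hx
      | cons a A =>
        rw [hAB] at h
        have hax : a = x := by simpa using h
        exact hdAB a (by simp) (by rw [hax]; exact List.mem_cons_of_mem _ hx)
    have hlast : ∀ x, (P (m - 1)).getLast? = some x → (z :: B).getLast? = some x := by
      intro x h
      rw [hAB, List.getLast?_append] at h
      cases hb : (z :: B).getLast? with
      | none => simp at hb
      | some w =>
        rw [hb] at h
        simpa using h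
    have hlastA : ∀ x, x ∈ A → (P (m - 1)).getLast? ≠ some x := by
      intro x hx h
      exact hdAB x hx (List.mem_of_getLast? (hlast x h))
    have hlastB : ∀ x, x ∈ B → (P (m - 1)).getLast? = some x → B.getLast? = some x := by
      intro x hx h
      have h1 := hlast x h
      cases B with
      | nil => simp at hx
      | cons b B =>
        rw [List.getLast?_cons_cons] at h1
        exact h1
    have hA1 : ∀ x ∈ A, ∀ y ∈ S1, G.Adj x y → y = n (m - 1) ∧ A.head? = some x := by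
      intro x hx y hy hxy
      rcases rbr_last G m n P C hR hC2 (m - 1) (by omega) x y (hinA x hx) hxy (hS1i y hy) with h | h
      · exact ⟨h.1, hhead x hx h.2⟩
      · exact absurd h.2 (hlastA x hx)
    have hce2 := hPEL V G S1 A hbase hiA'
      (fun x hx hxS => rbr_new G m n P C hR hC2 (m - 1) (by omega) x (hinA x hx) (hS1i x hxS))
      (fun x hx y hy hxy => (hA1 x hx y hy hxy).2)
      (fun x hx y hy y' hy' h h' => by
        rw [(hA1 x hx y hy h).1, (hA1 x hx y' hy' h').1])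
    set S2 : Set V := S1 ∪ LS A with hS2
    have hA2 : ∀ x ∈ B.reverse, ∀ y ∈ S2, G.Adj x y → y = n 0 ∧ B.reverse.head? = some x := by
      intro x hx y hy hxy
      rw [List.mem_reverse] at hx
      rcases hy with hy | hy
      · rcases rbr_last G m n P C hR hC2 (m - 1) (by omega) x y (hinB x hx) hxy (hS1i y hy) with
          h | h
        · exact absurd h.2 (hheadB x hx)
        · rw [hm1] at h
          rw [List.head?_reverse]
          exact ⟨h.1, hlastB x hx h.2⟩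
      · exact absurd hxy.symm (hAnB y hy x hx).2
    have hce3 := hPEL V G S2 B.reverse hce2 (Pool.Agent.Helper63.FL.ipt_rev G _ hiB')
      (fun x hx hxS => by
        rcases hxS with hxS | hxS
        · exact rbr_new G m n P C hR hC2 (m - 1) (by omega) x (hinB x (List.mem_reverse.mp hx))
            (hS1i x hxS)
        · exact hdAB x hxS (List.mem_cons_of_mem _ (List.mem_reverse.mp hx)))
      (fun x hx y hy hxy => (hA2 x hx y hy hxy).2)
      (fun x hx y hy y' hy' h h' => by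
        rw [(hA2 x hx y hy h).1, (hA2 x hx y' hy' h').1])
    refine hCEC V G G _ _ hce3 ?_ (fun _ _ _ _ _ => Iff.rfl)
    rintro x ⟨hxz, hx⟩
    rcases hx with h | ⟨i, hi, h⟩ | ⟨i, hi, h⟩
    · exact Or.inl (Or.inl (Or.inl h))
    · exact Or.inl (Or.inl (Or.inr (Or.inl ⟨i, by omega, h⟩)))
    · by_cases h1 : i = m - 1
      · rw [h1, hAB, List.mem_append, List.mem_cons] at h
        rcases h with h | h | h
        · exact Or.inl (Or.inr h)
        · exact absurd h hxz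
        · exact Or.inr (List.mem_reverse.mpr h)
      · exact Or.inl (Or.inl (Or.inr (Or.inr ⟨i, by omega, h⟩)))

/-- RBR -/
theorem st_RBR (hRCH : ST_RCH) (hRRO : ST_RRO) (hR3 : ST_R3) (hPEL : ST_PEL) (hCEC : ST_CEC) :
    ST_RBR := by
  intro V G m n P z C hR hC1 hC2 hz
  obtain ⟨i0, hi0, hz0⟩ : ∃ i0, i0 < m ∧ (z = n i0 ∨ z ∈ P i0) := by
    rcases hz with ⟨i, hi, h⟩ | ⟨i, hi, h⟩
    · exact ⟨i, hi, Or.inl h⟩
    · exact ⟨i, hi, Or.inr h⟩
  have hR' := hRRO V G m n P (i0 + 1) hR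
  have hm : 0 < m := by omega
  have e1 : ∀ x, (∃ i, i < m ∧ x = n i) ↔ ∃ i, i < m ∧ x = n ((i + (i0 + 1)) % m) := by
    intro x
    constructor
    · rintro ⟨i, hi, h⟩
      obtain ⟨j, hj, hji⟩ := rbr_idx (show i0 + 1 ≤ m by omega) hi
      exact ⟨j, hj, by rw [hji]; exact h⟩
    · rintro ⟨i, _, h⟩
      exact ⟨_, Nat.mod_lt _ hm, h⟩
  have e2 : ∀ x, (∃ i, i < m ∧ x ∈ P i) ↔ ∃ i, i < m ∧ x ∈ P ((i + (i0 + 1)) % m) := by
    intro x
    constructor
    · rintro ⟨i, hi, h⟩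
      obtain ⟨j, hj, hji⟩ := rbr_idx (show i0 + 1 ≤ m by omega) hi
      exact ⟨j, hj, by rw [hji]; exact h⟩
    · rintro ⟨i, _, h⟩
      exact ⟨_, Nat.mod_lt _ hm, h⟩
  have e3 : (m - 1 + (i0 + 1)) % m = i0 := by
    rw [show m - 1 + (i0 + 1) = i0 + m by omega, Nat.add_mod_right, Nat.mod_eq_of_lt hi0]
  have h := rbr_main hRCH hR3 hPEL hCEC G m (fun i => n ((i + (i0 + 1)) % m))
    (fun i => P ((i + (i0 + 1)) % m)) z C hR' hC1 ?_ ?_
  · refine hCEC V G G _ _ h ?_ (fun _ _ _ _ _ => Iff.rfl)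
    rintro x ⟨hxz, hx⟩
    rw [e1 x, e2 x] at hx
    exact ⟨hxz, hx⟩
  · intro c hc
    obtain ⟨_, h1, h2⟩ := hC2 c hc
    refine ⟨fun i _ => h1 _ (Nat.mod_lt _ hm), fun x => ?_⟩
    rw [h2 x]
    exact e1 x
  · show z = n ((m - 1 + (i0 + 1)) % m) ∨ z ∈ P ((m - 1 + (i0 + 1)) % m)
    rw [e3]
    exact hz0

end Pool.Agent.Helper24.FF
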