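import Pool.Agent.Helper24.FF.Stmts
import Pool.Agent.Helper63.FL.IPL
import Pool.Agent.Helper67.CT.GCI
import Pool.Agent.Helper61.CT.SD1
import Pool.Agent.Helper61.CT.SD2
import Pool.Agent.Helper63.CT.GEX

set_option autoImplicit false

/-!
HF, module WNC: wheels are not circle graphs.
-/

namespace Pool.Agent.Helper24.FF

open Pool.Agent.Helper64.CT Pool.Agent.Helper64.DT Pool.Agent.Helper64.FL
open Pool.Agent.Helper64.HG (Ovl Model Circ IC HellyCircle ChordModel)

variable {V : Type}

theorem wnc_rot (hWRO : ST_WRO) (G : SimpleGraph V) (r x : V) (M : List V) (hR : Rim G r M)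
    (hx : x ∈ r :: M) : ∃ M', Rim G x M' ∧ ∀ y, y ∈ r :: M → y = x ∨ y ∈ M' := by
  rw [List.mem_cons] at hx
  rcases hx with rfl | hx
  · exact ⟨M, hR, fun y hy => List.mem_cons.mp hy⟩
  · obtain ⟨A, B, rfl⟩ := List.append_of_mem hx
    refine ⟨B ++ r :: A, (hWRO V G r).1 x A B hR, ?_⟩
    intro y hy
    simp only [List.mem_cons, List.mem_append] at hy ⊢
    tauto

theorem wnc_key (hWRO : ST_WRO) (hPCN : ST_PCN) (hIPX : ST_IPX) (G : SimpleGraph V) (r : V)
    (M : List V) (hR : Rim G r M) (x a b : V) (hx : x ∈ r :: M) (ha : a ∈ r :: M)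
    (hb : b ∈ r :: M) (hax : a ≠ x) (hbx : b ≠ x) (hna : ¬ G.Adj x a) (hnb : ¬ G.Adj x b) :
    Comp G x a b := by
  obtain ⟨M', hR', hM'⟩ := wnc_rot hWRO G r x M hR hx
  obtain ⟨m0, N1, hN1⟩ : ∃ m0 N1, M' = m0 :: N1 := by
    cases h : M' with
    | nil =>
      have := hR'.len
      rw [h] at this
      simp at this
    | cons m0 N1 => exact ⟨m0, N1, rfl⟩
  have hN1ne : N1 ≠ [] := by
    rintro rfl
    have := hR'.len
    rw [hN1] at this
    simp at this
  obtain ⟨N, m1, hN⟩ : ∃ N m1, N1 = N ++ [m1] :=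
    ⟨N1.dropLast, N1.getLast hN1ne, (List.dropLast_append_getLast hN1ne).symm⟩
  have hM0 : M' = [m0] ++ (N ++ [m1]) := by rw [hN1, hN]; rfl
  have hhd : M'.head? = some m0 := by rw [hN1]; rfl
  have hlt : M'.getLast? = some m1 := by
    rw [hM0, List.getLast?_append, List.getLast?_append]
    rfl
  have hnd : M'.Nodup := Pool.Agent.Helper63.FL.ipt_nodup G _ hR'.ip
  have hW := (hIPX V G).2.2.1 M' hR'.ip
  rw [hM0] at hW
  have hWN : Wk G N := (((hIPX V G).2.2.2.1 _ _).mp (((hIPX V G).2.2.2.1 _ _).mp hW).2.1).1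
  have hmem : ∀ y ∈ N, y ∈ M' := by
    intro y hy
    rw [hM0]
    simp [hy]
  have hfar : ∀ y ∈ N, y ∈ Far G x := by
    intro y hy
    refine ⟨?_, ?_⟩
    · rintro rfl
      exact hR'.rM (hmem _ hy)
    · intro hadj
      rw [hR'.adj y (hmem y hy), hhd, hlt] at hadj
      rw [hM0, List.singleton_append, List.nodup_cons] at hnd
      rcases hadj with h | h
      · have h' := Option.some.inj h
        apply hnd.1
        rw [h']
        exact List.mem_append_left _ hy
      · have h' := Option.some.inj h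
        rw [List.nodup_append] at hnd
        exact hnd.2.2.2 y hy m1 (by simp) h'.symm
  have hin : ∀ y, y ∈ r :: M → y ≠ x → ¬ G.Adj x y → y ∈ N := by
    intro y hy hyx hny
    have hy' : y ∈ M' := (hM' y hy).resolve_left hyx
    have hy2 := hy'
    rw [hM0] at hy2
    rcases List.mem_append.mp hy2 with h | h
    · rw [List.mem_singleton] at h
      exfalso
      apply hny
      rw [hR'.adj y hy', hhd, h]
      exact Or.inl rfl
    · rcases List.mem_append.mp h with h | h
      · exact h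
      · rw [List.mem_singleton] at h
        exfalso
        apply hny
        rw [hR'.adj y hy', hlt, h]
        exact Or.inr rfl
  exact hPCN V G x N hWN hfar a (hin a ha hax hna) b (hin b hb hbx hnb)

/-- WNC -/
theorem st_WNC (hWRO : ST_WRO) (hPCN : ST_PCN) (hIPX : ST_IPX) : ST_WNC := by
  intro V G hW hC
  have hCI : CI G := st_GCI (st_SD2 st_SD1) Pool.Agent.Helper63.CT.st_GEX V G hC
  obtain ⟨h, r, M, ip, len, _, _, hrM, hadj, hall, ⟨a, b, c, ha, hb, hc, hab, hac, hbc, nab, nac,
    nbc⟩, _⟩ := hW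
  have hR : Rim G r M := ⟨ip, len, hrM, hadj⟩
  have hin : ∀ y, G.Adj h y → y ∈ r :: M := by
    intro y hy
    rcases hall y with h1 | h1 | h1
    · exact absurd h1.symm hy.ne
    · rw [h1]
      exact List.mem_cons_self
    · exact List.mem_cons_of_mem _ h1
  apply hCI
  refine ⟨h, a, b, c, ha, hb, hc, ?_, ?_, ?_⟩
  · exact wnc_key hWRO hPCN hIPX G r M hR c a b (hin c hc) (hin a ha) (hin b hb) hac hbc
      (fun h => nac h.symm) (fun h => nbc h.symm)
  · exact wnc_key hWRO hPCN hIPX G r M hR a b c (hin a ha) (hin b hb) (hin c hc) hab.symm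
      hac.symm nab nac
  · exact wnc_key hWRO hPCN hIPX G r M hR b a c (hin b hb) (hin a ha) (hin c hc) hab
      hbc.symm (fun h => nab h.symm) nbc

end Pool.Agent.Helper24.FF
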